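import Mathlib
import Pool.Agent.helper890_csd.Vals

/-! # MP_77d073_nt: finitely many systems of planes, or uncountably many counterexamples

Let `n ≥ 3`. For independent linear forms `L 1, ..., L n` let `nuBar L` be the infimum of the
absolute value of the product at the nonzero integer points, divided by `|det L|`. It depends only
on the planes `L i = 0`, and so does the quotient of the product of the heights (largest absolute
values of the coefficients) of the `L i` by `|det L|`; if this quotient is at most `B`, the system is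
called `B`-bounded. Every class of systems with `nuBar L ≥ ν` under integral changes of variables
contains a `B`-bounded system, `B = B (n, ν)`. Let `N` be the set of the positive numbers `nuBar L`
of the counterexamples to Oppenheim's conjecture.

1. `N ∪ {0}` is closed.
2. Let `K` be a compact set which is disjoint from `N ∪ {0}`. For every `B` there are finitely many
   irreducible RS-matrices in `SL(n, ℤ)` such that the planes of every `B`-bounded system with
   `nuBar L ∈ K` are the invariant planes of one of them. There are finitely many irreducible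
   RS-matrices such that the planes of every system with `nuBar L ∈ K` are the invariant planes of a
   matrix which is conjugate in `GL(n, ℤ)` to one of them.
3. If Oppenheim's conjecture fails in dimension `n`, then `N` has a largest element
   `τ ≤ n! / n ^ n`. It is attained by a recurrent counterexample whose product attains its minimum.
   The limits of the counterexamples with `nuBar L = τ` are counterexamples with `nuBar L = τ`.
   For some `B` the `B`-bounded ones among them form uncountably many classes.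
4. For every `ν > 0` either there are for every `B` finitely many irreducible RS-matrices such that
   the planes of every `B`-bounded system with `nuBar L ≥ ν` are the invariant planes of one of
   them, or for some `B` there are uncountably many classes of `B`-bounded counterexamples with
   `nuBar L ≥ ν`.
5. Oppenheim's conjecture in dimension `n` is equivalent to its uniform version: for all `ν > 0` and
   `B` there are finitely many irreducible RS-matrices in `SL(n, ℤ)` such that the planes of every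
   `B`-bounded system with `nuBar L ≥ ν` are the invariant planes of one of them.
6. It is equivalent to: for all `ν > 0` there are finitely many irreducible RS-matrices in
   `SL(n, ℤ)` such that the planes of every system with `nuBar L ≥ ν` are the invariant planes of a
   matrix which is conjugate in `GL(n, ℤ)` to one of them.
7. It is equivalent to: for all `ν > 0` the systems with `nuBar L ≥ ν` form at most countably many
   classes. -/

set_option autoImplicit false

open Filter Topology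

namespace Pool.Agent.Results.MP_77d073_nt.FinitePlanes

variable {n : ℕ}

/-- the product of the linear forms with the coefficients `L i`, at an integer point -/
noncomputable def F (L : Fin n → Fin n → ℝ) (p : Fin n → ℤ) : ℝ :=
  ∏ i : Fin n, ∑ j : Fin n, L i j * (p j : ℝ)

/-- the infimum of the absolute value of the product at the nonzero integer points, divided by
`|det L|` -/
noncomputable def nuBar (L : Fin n → Fin n → ℝ) : ℝ :=
  (⨅ p : {p : Fin n → ℤ // p ≠ 0}, |F L p.1|) / |(Matrix.of L).det|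

/-- the product is bounded away from zero at the nonzero integer points -/
def BoundedAway (L : Fin n → Fin n → ℝ) : Prop :=
  ∃ ν : ℝ, 0 < ν ∧ ∀ p : Fin n → ℤ, p ≠ 0 → ν ≤ |F L p|

/-- `A ∈ SL(n, ℤ)` is an irreducible RS-matrix: its characteristic polynomial is irreducible and
its eigenvalues are real. -/
def IrreducibleRS (A : Matrix (Fin n) (Fin n) ℤ) : Prop :=
  A.det = 1 ∧ Irreducible (A.charpoly.map (Int.castRingHom ℚ)) ∧
    ∀ z : ℂ, Polynomial.aeval z A.charpoly = 0 → z.im = 0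

/-- the hyperplanes `L i = 0` are invariant under `A` -/
def InvariantPlanes (A : Matrix (Fin n) (Fin n) ℤ) (L : Fin n → Fin n → ℝ) : Prop :=
  ∀ i : Fin n, ∀ x : Fin n → ℝ, ∑ j, L i j * x j = 0 →
    ∑ j, L i j * ((A.map (Int.cast : ℤ → ℝ)).mulVec x) j = 0

/-- Oppenheim's conclusion -/
def HasMatrix (L : Fin n → Fin n → ℝ) : Prop :=
  ∃ A : Matrix (Fin n) (Fin n) ℤ, IrreducibleRS A ∧ InvariantPlanes A L

/-- Oppenheim's conjecture in dimension `n` -/
def Oppenheim (n : ℕ) : Prop :=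
  ∀ L : Fin n → Fin n → ℝ, LinearIndependent ℝ L → BoundedAway L → HasMatrix L

/-- The product of the heights of the forms (the height of `L i` is `‖L i‖`, the largest absolute
value of its coefficients) is at most `B |det L|`. -/
def Bounded (B : ℝ) (L : Fin n → Fin n → ℝ) : Prop :=
  ∏ i, ‖L i‖ ≤ B * |(Matrix.of L).det|

/-- The products of the two systems are equal after an integral change of variables of determinant
`±1`, up to a constant factor. -/
def SameClass (L L' : Fin n → Fin n → ℝ) : Prop :=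
  ∃ (c : ℝ) (γ : Matrix (Fin n) (Fin n) ℤ), c ≠ 0 ∧ |γ.det| = 1 ∧
    ∀ p : Fin n → ℤ, F L p = c * F L' (γ.mulVec p)

/-- The limits of the systems `a i • (L i ∘ γ)`, `a` positive of product one, `γ` integral of
determinant `±1`. -/
def Limits (L : Fin n → Fin n → ℝ) : Set (Fin n → Fin n → ℝ) :=
  closure {L' | ∃ (a : Fin n → ℝ) (γ : Matrix (Fin n) (Fin n) ℤ), (∀ i, 0 < a i) ∧
    ∏ i, a i = 1 ∧ |γ.det| = 1 ∧ ∀ i j, L' i j = a i * ∑ k, L i k * (γ k j : ℝ)}

/-- `L` is a limit of each of its limits. -/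
def Recurrent (L : Fin n → Fin n → ℝ) : Prop :=
  ∀ L' ∈ Limits L, L ∈ Limits L'

/-- the positive values `nuBar L` of the counterexamples to Oppenheim's conjecture -/
def Values (n : ℕ) : Set ℝ :=
  {t | 0 < t ∧ ∃ L : Fin n → Fin n → ℝ, LinearIndependent ℝ L ∧ ¬ HasMatrix L ∧ nuBar L = t}

open Pool.Agent Pool.Agent.helper890_csd

lemma limits_eq (L : Fin n → Fin n → ℝ) (L' : Fin n → Fin n → ℝ) :
    L' ∈ Limits L ↔ Matrix.of L' ∈ closure (H715R2.Orb (Matrix.of L)) := by
  have h1 : {L' : Fin n → Fin n → ℝ | ∃ (a : Fin n → ℝ) (γ : Matrix (Fin n) (Fin n) ℤ),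
      (∀ i, 0 < a i) ∧ ∏ i, a i = 1 ∧ |γ.det| = 1 ∧
      ∀ i j, L' i j = a i * ∑ k, L i k * (γ k j : ℝ)} =
      (H715R2.Orb (Matrix.of L) : Set (Fin n → Fin n → ℝ)) := by
    ext h
    constructor
    · rintro ⟨a, γ, ha0, ha1, hγ, hh⟩
      refine ⟨a, γ, ha0, ha1, Int.isUnit_iff_abs_eq.2 hγ, ?_⟩
      funext i j
      rw [hh, Matrix.mul_assoc, Matrix.diagonal_mul, Matrix.mul_apply]
      rfl
    · rintro ⟨a, γ, ha0, ha1, hγ, hh⟩
      refine ⟨a, γ, ha0, ha1, Int.isUnit_iff_abs_eq.1 hγ, fun i j => ?_⟩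
      rw [hh, Matrix.mul_assoc, Matrix.diagonal_mul, Matrix.mul_apply]
      rfl
  unfold Limits
  rw [h1]
  rfl

lemma recurrent_iff (L : Fin n → Fin n → ℝ) :
    Recurrent L ↔ TH314.CSD.Recurrent (Matrix.of L) := by
  constructor
  · intro h g hg
    obtain ⟨L', rfl⟩ : ∃ L' : Fin n → Fin n → ℝ, Matrix.of L' = g := ⟨g, rfl⟩
    exact (limits_eq _ _).1 (h L' ((limits_eq _ _).2 hg))
  · intro h L' hL'
    exact (limits_eq _ _).2 (h _ ((limits_eq _ _).1 hL'))

lemma nuBar_eq (L : Fin n → Fin n → ℝ) : nuBar L = nb (Matrix.of L) := rfl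

lemma indep_iff (L : Fin n → Fin n → ℝ) : LinearIndependent ℝ L ↔ (Matrix.of L).det ≠ 0 := by
  constructor
  · exact fun h => Pool.Agent.H905R2.Opp.det_ne h
  · intro h
    have h1 : IsUnit (Matrix.of L) :=
      (Matrix.isUnit_iff_isUnit_det _).2 (isUnit_iff_ne_zero.2 h)
    exact Matrix.linearIndependent_rows_iff_isUnit.2 h1

lemma class_iff (L L' : Fin n → Fin n → ℝ) :
    SameClass L L' ↔ Eqv (Matrix.of L) (Matrix.of L') := by
  constructor
  · rintro ⟨c, γ, hc, hγ, heq⟩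
    exact ⟨c, γ, hc, Int.isUnit_iff_abs_eq.2 hγ, heq⟩
  · rintro ⟨c, γ, hc, hγ, heq⟩
    exact ⟨c, γ, hc, Int.isUnit_iff_abs_eq.1 hγ, heq⟩

/-- Oppenheim's conclusion means that the product is proportional to an integral form. -/
lemma hasMatrix_iff (hn : 3 ≤ n) {L : Fin n → Fin n → ℝ} (hL : (Matrix.of L).det ≠ 0)
    (hpos : 0 < nb (Matrix.of L)) : HasMatrix L ↔ H715R2.PropInt (Matrix.of L) := by
  have h0 : 0 < nb (Matrix.of L) * |(Matrix.of L).det| := mul_pos hpos (abs_pos.2 hL)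
  have h1 := hasNu_of_nb hL le_rfl
  constructor
  · rintro ⟨A, hA1, hA2⟩
    exact propInt_of_mat hn hL h0 h1 hA1.2.1 hA2
  · intro hP
    exact exists_IRS (by omega) hL h0 h1 hP

lemma boundedAway_iff (hn : 0 < n) {L : Fin n → Fin n → ℝ} (hL : (Matrix.of L).det ≠ 0) :
    BoundedAway L ↔ 0 < nb (Matrix.of L) := by
  constructor
  · rintro ⟨ν, hν, hF⟩
    exact div_pos (hν.trans_le (H715R2.le_nuInf hn hF)) (abs_pos.2 hL)
  · intro h
    exact ⟨_, mul_pos h (abs_pos.2 hL), hasNu_of_nb hL le_rfl⟩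

lemma values_eq (hn : 3 ≤ n) : Values n = NV n := by
  ext t
  rw [mem_NV (by omega)]
  constructor
  · rintro ⟨ht, L, hL, hA, hLt⟩
    rw [indep_iff] at hL
    exact ⟨ht, Matrix.of L, hL, fun hP => hA ((hasMatrix_iff hn hL (by
      rw [← nuBar_eq, hLt]; exact ht)).2 hP), hLt⟩
  · rintro ⟨ht, g, hg, hint, hgt⟩
    obtain ⟨L, rfl⟩ : ∃ L : Fin n → Fin n → ℝ, Matrix.of L = g := ⟨g, rfl⟩
    exact ⟨ht, L, (indep_iff L).2 hg, fun hA => hint ((hasMatrix_iff hn hg (by
      rw [hgt]; exact ht)).1 hA), hgt⟩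

/-- a compact set of values without values of counterexamples -/
lemma compact_data (hn : 3 ≤ n) {K : Set ℝ} (hK : IsCompact K)
    (hKN : Disjoint K (insert 0 (Values n))) :
    ∃ (K' : Set ℝ) (ν : ℝ), IsCompact K' ∧ 0 < ν ∧ (∀ t ∈ K', ν ≤ t) ∧
      (∀ t ∈ K, 0 ≤ t → t ∈ K') ∧
      ∀ g : Matrix (Fin n) (Fin n) ℝ, |g.det| = 1 → H715R2.nuInf g ∈ K' → H715R2.PropInt g := by
  rw [values_eq hn] at hKN
  have h0K : (0 : ℝ) ∉ K := fun h => Set.disjoint_left.1 hKN h (Set.mem_insert _ _)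
  obtain ⟨δ, hδ, hball⟩ := Metric.isOpen_iff.1 hK.isClosed.isOpen_compl 0 h0K
  have hlow : ∀ t ∈ K ∩ Set.Ici 0, δ ≤ t := by
    rintro t ⟨ht, ht0⟩
    by_contra hlt
    push Not at hlt
    have h5 : t ∈ Metric.ball (0 : ℝ) δ := by
      rw [Metric.mem_ball, Real.dist_eq, sub_zero, abs_of_nonneg ht0]
      exact hlt
    exact hball h5 ht
  refine ⟨K ∩ Set.Ici 0, δ, hK.inter_right isClosed_Ici, hδ, hlow, fun t h1 h2 => ⟨h1, h2⟩, ?_⟩
  intro g hg hgK
  by_contra hint
  exact Set.disjoint_left.1 hKN hgK.1 (Or.inr ⟨hδ.trans_le (hlow _ hgK), g, hg, hint, rfl⟩)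

theorem result (n : ℕ) (hn : 3 ≤ n) :
    -- 1. the values of the counterexamples are closed
    IsClosed (insert 0 (Values n)) ∧
    -- 2. finitely many matrices off the values of the counterexamples
    (∀ K : Set ℝ, IsCompact K → Disjoint K (insert 0 (Values n)) →
      (∀ B : ℝ, ∃ S : Finset (Matrix (Fin n) (Fin n) ℤ), (∀ A ∈ S, IrreducibleRS A) ∧
        ∀ L : Fin n → Fin n → ℝ, LinearIndependent ℝ L → nuBar L ∈ K → Bounded B L →
          ∃ A ∈ S, InvariantPlanes A L) ∧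
      ∃ S : Finset (Matrix (Fin n) (Fin n) ℤ), (∀ A ∈ S, IrreducibleRS A) ∧
        ∀ L : Fin n → Fin n → ℝ, LinearIndependent ℝ L → nuBar L ∈ K →
          ∃ A ∈ S, ∃ γ : Matrix (Fin n) (Fin n) ℤ, |γ.det| = 1 ∧
            InvariantPlanes (γ * A * γ⁻¹) L) ∧
    -- 3. the largest value of a counterexample
    (¬ Oppenheim n → ∃ τ ∈ Values n,
      τ ≤ (n.factorial : ℝ) / (n : ℝ) ^ n ∧ (∀ t ∈ Values n, t ≤ τ) ∧
      (∃ L : Fin n → Fin n → ℝ, LinearIndependent ℝ L ∧ ¬ HasMatrix L ∧ nuBar L = τ ∧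
        Recurrent L ∧ ∃ p : Fin n → ℤ, p ≠ 0 ∧ |F L p| = τ * |(Matrix.of L).det|) ∧
      (∀ L : Fin n → Fin n → ℝ, LinearIndependent ℝ L → ¬ HasMatrix L → nuBar L = τ →
        ∀ L' ∈ Limits L, LinearIndependent ℝ L' ∧ ¬ HasMatrix L' ∧ nuBar L' = τ) ∧
      ∃ B : ℝ, ∀ L' : ℕ → Fin n → Fin n → ℝ, ∃ L : Fin n → Fin n → ℝ,
        LinearIndependent ℝ L ∧ ¬ HasMatrix L ∧ nuBar L = τ ∧ Bounded B L ∧
          ∀ k, ¬ SameClass L (L' k)) ∧
    -- 4. finitely many matrices or uncountably many classes of counterexamples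
    (∀ ν : ℝ, 0 < ν →
      (∀ B : ℝ, ∃ S : Finset (Matrix (Fin n) (Fin n) ℤ), (∀ A ∈ S, IrreducibleRS A) ∧
        ∀ L : Fin n → Fin n → ℝ, LinearIndependent ℝ L → ν ≤ nuBar L → Bounded B L →
          ∃ A ∈ S, InvariantPlanes A L) ∨
      ∃ B : ℝ, ∀ L' : ℕ → Fin n → Fin n → ℝ, ∃ L : Fin n → Fin n → ℝ,
        LinearIndependent ℝ L ∧ ¬ HasMatrix L ∧ ν ≤ nuBar L ∧ Bounded B L ∧
          ∀ k, ¬ SameClass L (L' k)) ∧
    -- 5. the uniform version of the conjecture
    (Oppenheim n ↔ ∀ ν : ℝ, 0 < ν → ∀ B : ℝ,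
      ∃ S : Finset (Matrix (Fin n) (Fin n) ℤ), (∀ A ∈ S, IrreducibleRS A) ∧
        ∀ L : Fin n → Fin n → ℝ, LinearIndependent ℝ L → ν ≤ nuBar L → Bounded B L →
          ∃ A ∈ S, InvariantPlanes A L) ∧
    -- 6. the uniform version up to conjugation
    (Oppenheim n ↔ ∀ ν : ℝ, 0 < ν →
      ∃ S : Finset (Matrix (Fin n) (Fin n) ℤ), (∀ A ∈ S, IrreducibleRS A) ∧
        ∀ L : Fin n → Fin n → ℝ, LinearIndependent ℝ L → ν ≤ nuBar L →
          ∃ A ∈ S, ∃ γ : Matrix (Fin n) (Fin n) ℤ, |γ.det| = 1 ∧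
            InvariantPlanes (γ * A * γ⁻¹) L) ∧
    -- 7. countably many classes
    (Oppenheim n ↔ ∀ ν : ℝ, 0 < ν → ∃ L' : ℕ → Fin n → Fin n → ℝ,
      ∀ L : Fin n → Fin n → ℝ, LinearIndependent ℝ L → ν ≤ nuBar L → ∃ k, SameClass L (L' k)) := by
  classical
  have hn0 : 0 < n := by omega
  have part1 : IsClosed (insert 0 (Values n)) := by rw [values_eq hn]; exact NV_closed hn
  have part2a : ∀ K : Set ℝ, IsCompact K → Disjoint K (insert 0 (Values n)) →
      ∀ B : ℝ, ∃ S : Finset (Matrix (Fin n) (Fin n) ℤ), (∀ A ∈ S, IrreducibleRS A) ∧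
        ∀ L : Fin n → Fin n → ℝ, LinearIndependent ℝ L → nuBar L ∈ K → Bounded B L →
          ∃ A ∈ S, InvariantPlanes A L := by
    intro K hK hKN B
    obtain ⟨K', ν, hK', hν, hKν, hKK', hall⟩ := compact_data hn hK hKN
    obtain ⟨S, hS1, hS2⟩ := finite_mats hn hK' hν hKν hall B
    exact ⟨S, hS1, fun L hL hLK hLB => hS2 (Matrix.of L) ((indep_iff L).1 hL)
      (hKK' _ hLK (nb_nonneg' hn0 _)) hLB⟩
  have part2b : ∀ K : Set ℝ, IsCompact K → Disjoint K (insert 0 (Values n)) →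
      ∃ S : Finset (Matrix (Fin n) (Fin n) ℤ), (∀ A ∈ S, IrreducibleRS A) ∧
        ∀ L : Fin n → Fin n → ℝ, LinearIndependent ℝ L → nuBar L ∈ K →
          ∃ A ∈ S, ∃ γ : Matrix (Fin n) (Fin n) ℤ, |γ.det| = 1 ∧
            InvariantPlanes (γ * A * γ⁻¹) L := by
    intro K hK hKN
    obtain ⟨K', ν, hK', hν, hKν, hKK', hall⟩ := compact_data hn hK hKN
    obtain ⟨S, hS1, hS2⟩ := finite_mats_conj hn hK' hν hKν hall
    refine ⟨S, hS1, fun L hL hLK => ?_⟩
    obtain ⟨A, hA, γ, hγ, hA2⟩ := hS2 (Matrix.of L) ((indep_iff L).1 hL)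
      (hKK' _ hLK (nb_nonneg' hn0 _))
    exact ⟨A, hA, γ, Int.isUnit_iff_abs_eq.1 hγ, hA2⟩
  -- Minkowski's bound
  have hmink : ∀ ν : ℝ, ∀ L : Fin n → Fin n → ℝ, LinearIndependent ℝ L → ν ≤ nuBar L →
      nuBar L ∈ Set.Icc ν ((n.factorial : ℝ) / (n : ℝ) ^ n) := fun ν L hL hν =>
    ⟨hν, nb_le hn0 ((indep_iff L).1 hL)⟩
  have hdisj : ∀ ν : ℝ, 0 < ν → (∀ t ∈ Values n, t < ν) →
      Disjoint (Set.Icc ν ((n.factorial : ℝ) / (n : ℝ) ^ n)) (insert 0 (Values n)) := by
    intro ν hν hlt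
    rw [Set.disjoint_left]
    rintro t ⟨ht1, -⟩ (h0 | h1)
    · rw [h0] at ht1
      exact absurd hν (not_lt.2 ht1)
    · exact absurd ht1 (not_le.2 (hlt t h1))
  -- the conjecture and the values
  have hopp : Oppenheim n ↔ Values n = ∅ := by
    constructor
    · intro hO
      rw [Set.eq_empty_iff_forall_notMem]
      rintro t ⟨ht, L, hL, hA, hLt⟩
      exact hA (hO L hL ((boundedAway_iff hn0 ((indep_iff L).1 hL)).2 (by
        rw [← nuBar_eq, hLt]; exact ht)))
    · intro hV L hL hb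
      by_contra hA
      have h1 : nuBar L ∈ Values n :=
        ⟨(boundedAway_iff hn0 ((indep_iff L).1 hL)).1 hb, L, hL, hA, rfl⟩
      rw [hV] at h1
      exact h1
  have part3 : (Values n).Nonempty → ∃ τ ∈ Values n,
      τ ≤ (n.factorial : ℝ) / (n : ℝ) ^ n ∧ (∀ t ∈ Values n, t ≤ τ) ∧
      (∃ L : Fin n → Fin n → ℝ, LinearIndependent ℝ L ∧ ¬ HasMatrix L ∧ nuBar L = τ ∧
        Recurrent L ∧ ∃ p : Fin n → ℤ, p ≠ 0 ∧ |F L p| = τ * |(Matrix.of L).det|) ∧
      (∀ L : Fin n → Fin n → ℝ, LinearIndependent ℝ L → ¬ HasMatrix L → nuBar L = τ →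
        ∀ L' ∈ Limits L, LinearIndependent ℝ L' ∧ ¬ HasMatrix L' ∧ nuBar L' = τ) ∧
      ∃ B : ℝ, ∀ L' : ℕ → Fin n → Fin n → ℝ, ∃ L : Fin n → Fin n → ℝ,
        LinearIndependent ℝ L ∧ ¬ HasMatrix L ∧ nuBar L = τ ∧ Bounded B L ∧
          ∀ k, ¬ SameClass L (L' k) := by
    intro hne
    rw [values_eq hn] at hne ⊢
    obtain ⟨τ, hτ, hmax⟩ := NV_max hn hne
    have hτ0 : 0 < τ := hτ.1
    refine ⟨τ, hτ, NV_le hn0 hτ, hmax, ?_, ?_, ?_⟩
    · obtain ⟨g, hg, hgτ, hint, hrec, p, hp, hpτ⟩ := NV_att hn hτ hmax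
      obtain ⟨L, rfl⟩ : ∃ L : Fin n → Fin n → ℝ, Matrix.of L = g := ⟨g, rfl⟩
      have hnb : nb (Matrix.of L) = τ := by rw [nb_of_one hg, hgτ]
      refine ⟨L, (indep_iff L).2 (det_ne_of_one hg), fun hA => hint
        ((hasMatrix_iff hn (det_ne_of_one hg) (by rw [hnb]; exact hτ0)).1 hA), hnb,
        (recurrent_iff L).2 hrec, p, hp, ?_⟩
      rw [hg, mul_one]
      exact hpτ
    · intro L hL hA hLτ L' hL'
      rw [limits_eq] at hL'
      have hdet := (indep_iff L).1 hL
      have hint : ¬ H715R2.PropInt (Matrix.of L) := fun hP =>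
        hA ((hasMatrix_iff hn hdet (by rw [← nuBar_eq, hLτ]; exact hτ0)).2 hP)
      obtain ⟨h1, h2⟩ := NV_ext hn hτ0 hmax hdet hLτ hint hL'
      have hdet' : (Matrix.of L').det ≠ 0 := by
        rw [← abs_ne_zero, H715R2.abs_det_closure hL', abs_ne_zero]
        exact hdet
      exact ⟨(indep_iff L').2 hdet', fun hA' => h1
        ((hasMatrix_iff hn hdet' (by rw [h2]; exact hτ0)).1 hA'), h2⟩
    · obtain ⟨B, hB⟩ := NV_unc hn hτ hmax
      refine ⟨B, fun L' => ?_⟩
      obtain ⟨g, h1, h2, h3, h4, h5⟩ := hB (fun k => Matrix.of (L' k))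
      obtain ⟨L, rfl⟩ : ∃ L : Fin n → Fin n → ℝ, Matrix.of L = g := ⟨g, rfl⟩
      exact ⟨L, (indep_iff L).2 h1, fun hA => h3
        ((hasMatrix_iff hn h1 (by rw [h2]; exact hτ0)).1 hA), h2, h4,
        fun k hk => h5 k ((class_iff _ _).1 hk)⟩
  have part4 : ∀ ν : ℝ, 0 < ν →
      (∀ t ∈ Values n, t < ν) ∨
      ∃ B : ℝ, ∀ L' : ℕ → Fin n → Fin n → ℝ, ∃ L : Fin n → Fin n → ℝ,
        LinearIndependent ℝ L ∧ ¬ HasMatrix L ∧ ν ≤ nuBar L ∧ Bounded B L ∧
          ∀ k, ¬ SameClass L (L' k) := by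
    intro ν hν
    by_cases hcase : ∃ t ∈ Values n, ν ≤ t
    · right
      obtain ⟨t, ht, hνt⟩ := hcase
      obtain ⟨τ, -, -, hle, -, -, B, hB⟩ := part3 ⟨t, ht⟩
      refine ⟨B, fun L' => ?_⟩
      obtain ⟨L, h1, h2, h3, h4, h5⟩ := hB L'
      exact ⟨L, h1, h2, by rw [h3]; exact hνt.trans (hle t ht), h4, h5⟩
    · left
      push Not at hcase
      exact hcase
  refine ⟨part1, fun K hK hKN => ⟨part2a K hK hKN, part2b K hK hKN⟩, ?_, ?_, ?_, ?_, ?_⟩
  · intro hO
    apply part3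
    rw [hopp] at hO
    exact Set.nonempty_iff_ne_empty.2 hO
  · intro ν hν
    rcases part4 ν hν with h | h
    · left
      intro B
      obtain ⟨S, hS1, hS2⟩ := part2a _ isCompact_Icc (hdisj ν hν h) B
      exact ⟨S, hS1, fun L hL hLν hLB => hS2 L hL (hmink ν L hL hLν) hLB⟩
    · exact Or.inr h
  · constructor
    · intro hO ν hν B
      rw [hopp] at hO
      obtain ⟨S, hS1, hS2⟩ := part2a _ isCompact_Icc (hdisj ν hν (by rw [hO]; simp)) B
      exact ⟨S, hS1, fun L hL hLν hLB => hS2 L hL (hmink ν L hL hLν) hLB⟩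
    · intro h L hL hb
      have hdet := (indep_iff L).1 hL
      have hpos := (boundedAway_iff hn0 hdet).1 hb
      obtain ⟨S, hS1, hS2⟩ := h (nuBar L) hpos ((∏ i, ‖L i‖) / |(Matrix.of L).det|)
      obtain ⟨A, hA, hA2⟩ := hS2 L hL le_rfl (by
        unfold Bounded
        rw [div_mul_cancel₀ _ (abs_ne_zero.2 hdet)])
      exact ⟨A, hS1 A hA, hA2⟩
  · constructor
    · intro hO ν hν
      rw [hopp] at hO
      obtain ⟨S, hS1, hS2⟩ := part2b _ isCompact_Icc (hdisj ν hν (by rw [hO]; simp))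
      exact ⟨S, hS1, fun L hL hLν => hS2 L hL (hmink ν L hL hLν)⟩
    · intro h L hL hb
      have hdet := (indep_iff L).1 hL
      have hpos := (boundedAway_iff hn0 hdet).1 hb
      obtain ⟨S, hS1, hS2⟩ := h (nuBar L) hpos
      obtain ⟨A, hA, γ, hγ, hA2⟩ := hS2 L hL le_rfl
      exact ⟨γ * A * γ⁻¹, IRS.conj (hS1 A hA) (Int.isUnit_iff_abs_eq.2 hγ), hA2⟩
  · constructor
    · intro hO ν hν
      rw [hopp, values_eq hn] at hO
      have hall : ∀ g : Matrix (Fin n) (Fin n) ℝ, |g.det| = 1 →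
          H715R2.nuInf g ∈ Set.Icc ν ((n.factorial : ℝ) / (n : ℝ) ^ n) → H715R2.PropInt g := by
        intro g hg hgK
        by_contra hint
        have h1 : H715R2.nuInf g ∈ NV n := ⟨hν.trans_le hgK.1, g, hg, hint, rfl⟩
        rw [hO] at h1
        exact h1
      obtain ⟨H, hH1, hH2⟩ := finite_off' hn isCompact_Icc hν (fun t ht => ht.1) hall
      refine ⟨fun k => (H.toList).getD k 0, fun L hL hLν => ?_⟩
      have hdet := (indep_iff L).1 hL
      obtain ⟨h, hh, hgh⟩ := hH2 _ (det_Nm ⟨0, hn0⟩ hdet) (by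
        rw [nb_Nm']; exact hmink ν L hL hLν)
      obtain ⟨k, hk, hk2⟩ := List.getElem_of_mem (Finset.mem_toList.2 hh)
      refine ⟨k, (class_iff _ _).2 ?_⟩
      show Eqv (Matrix.of L) ((H.toList).getD k 0)
      rw [List.getD_eq_getElem _ _ hk, hk2]
      exact (eqv_Nm ⟨0, hn0⟩ hdet).trans hgh.eqv
    · intro h
      rw [hopp]
      by_contra hne
      obtain ⟨t, ht⟩ := Set.nonempty_iff_ne_empty.2 hne
      rcases part4 t ht.1 with h1 | ⟨B, hB⟩
      · exact absurd (h1 t ht) (lt_irrefl t)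
      · obtain ⟨L', hL'⟩ := h t ht.1
        obtain ⟨L, h1, -, h3, -, h5⟩ := hB L'
        obtain ⟨k, hk⟩ := hL' L h1 h3
        exact h5 k hk

end Pool.Agent.Results.MP_77d073_nt.FinitePlanes
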